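import Pool.Agent.H3RD.W830.RD.Stm

set_option autoImplicit false
set_option linter.all false

namespace Pool.Agent.W918.RD.LPP

open Finset
open Pool.Agent.W830.RD
open scoped Classical

noncomputable section

theorem prod_lower (q : ℝ) (hq0 : 0 < q) (hq1 : q < 1) :
    ∃ c : ℝ, 0 < c ∧ c ≤ 1 ∧ ∀ L : ℕ, c ≤ ∏ k ∈ Finset.Icc 1 L, (1 - q ^ k) := by
  have hfac : ∀ k : ℕ, 1 ≤ k → 0 < 1 - q ^ k ∧ 1 - q ^ k ≤ 1 := by
    intro k hk
    have h1 : q ^ k < 1 := pow_lt_one₀ hq0.le hq1 (by omega)
    have h2 : 0 < q ^ k := pow_pos hq0 k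
    constructor <;> linarith
  have hpos : ∀ L : ℕ, 0 < ∏ k ∈ Finset.Icc 1 L, (1 - q ^ k) := by
    intro L
    apply Finset.prod_pos
    intro k hk
    exact (hfac k (Finset.mem_Icc.mp hk).1).1
  have hone : ∀ L : ℕ, ∏ k ∈ Finset.Icc 1 L, (1 - q ^ k) ≤ 1 := by
    intro L
    apply Finset.prod_le_one
    · intro k hk
      exact (hfac k (Finset.mem_Icc.mp hk).1).1.le
    · intro k hk
      exact (hfac k (Finset.mem_Icc.mp hk).1).2
  have hstep : ∀ L : ℕ, ∏ k ∈ Finset.Icc 1 (L + 1), (1 - q ^ k) =
      (∏ k ∈ Finset.Icc 1 L, (1 - q ^ k)) * (1 - q ^ (L + 1)) := by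
    intro L
    rw [Finset.prod_Icc_succ_top (by omega)]
  have hanti : ∀ L M : ℕ, L ≤ M → ∏ k ∈ Finset.Icc 1 M, (1 - q ^ k) ≤ ∏ k ∈ Finset.Icc 1 L, (1 - q ^ k) := by
    intro L M hLM
    induction M, hLM using Nat.le_induction with
    | base => exact le_rfl
    | succ M hM ih =>
      rw [hstep M]
      have := hfac (M + 1) (by omega)
      have h2 := hpos M
      nlinarith
  obtain ⟨L0, hL0⟩ : ∃ L0 : ℕ, q ^ L0 < (1 - q) / 2 :=
    exists_pow_lt_of_lt_one (by linarith) hq1
  set a : ℝ := 2 * q / (1 - q) with ha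
  have ha0 : 0 < a := by
    rw [ha]
    apply div_pos <;> linarith
  have haq : a * (1 - q) = 2 * q := by
    rw [ha]
    field_simp
    have : (1 - q) ≠ 0 := by linarith
    field_simp
  set P := fun L : ℕ => ∏ k ∈ Finset.Icc 1 L, (1 - q ^ k) with hP
  have hden : 0 < 1 + a * q ^ L0 := by
    have := pow_pos hq0 L0
    positivity
  have key : ∀ L : ℕ, L0 ≤ L → P L0 / (1 + a * q ^ L0) * (1 + a * q ^ L) ≤ P L := by
    intro L hL
    induction L, hL using Nat.le_induction with
    | base =>
      rw [div_mul_cancel₀ _ hden.ne']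
    | succ L hL ih =>
      have hPs : P (L + 1) = P L * (1 - q ^ (L + 1)) := hstep L
      rw [hPs]
      have hf := hfac (L + 1) (by omega)
      have h1 : P L0 / (1 + a * q ^ L0) * (1 + a * q ^ L) * (1 - q ^ (L + 1)) ≤ P L * (1 - q ^ (L + 1)) :=
        mul_le_mul_of_nonneg_right ih hf.1.le
      refine le_trans ?_ h1
      rw [mul_assoc]
      apply mul_le_mul_of_nonneg_left _ (div_nonneg (hpos L0).le hden.le)
      have hx : 0 < q ^ L := pow_pos hq0 L
      have hx2 : q ^ L ≤ q ^ L0 := pow_le_pow_of_le_one hq0.le hq1.le hL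
      have hx3 : q ^ L < (1 - q) / 2 := lt_of_le_of_lt hx2 hL0
      rw [pow_succ]
      set x := q ^ L with hxdef
      have h3 : a * (x * q) ≤ a * ((1 - q) / 2) := by
        apply mul_le_mul_of_nonneg_left _ ha0.le
        nlinarith
      have h4 : a * (x * q) ≤ q := by linarith
      have h5 : q ≤ a * (1 - q) - a * (x * q) := by linarith
      have h6 : x * q ≤ x * (a * (1 - q) - a * (x * q)) := mul_le_mul_of_nonneg_left h5 hx.le
      nlinarith
  refine ⟨P L0 / (1 + a * q ^ L0), div_pos (hpos L0) hden, ?_, ?_⟩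
  · rw [div_le_one hden]
    have := hone L0
    have h2 : 0 < a * q ^ L0 := mul_pos ha0 (pow_pos hq0 L0)
    have h3 : P L0 ≤ 1 := this
    linarith
  · intro L
    by_cases h : L0 ≤ L
    · refine le_trans ?_ (key L h)
      have h2 : 0 < a * q ^ L := mul_pos ha0 (pow_pos hq0 L)
      have h3 : 0 ≤ P L0 / (1 + a * q ^ L0) := div_nonneg (hpos L0).le hden.le
      nlinarith
    · have h1 : P L0 ≤ P L := hanti L L0 (by omega)
      refine le_trans ?_ h1
      rw [div_le_iff₀ hden]
      have h2 : 0 < a * q ^ L0 := mul_pos ha0 (pow_pos hq0 L0)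
      have h3 : 0 < P L0 := hpos L0
      nlinarith

def SS (n v : ℕ) (i : Bool × ℕ) : Finset (Fin n × Fin n) :=
  if i.1 = true then (Om n).filter (fun e => (e.2 : ℕ) = v + i.2 ∧ v ≤ (e.1 : ℕ))
  else (Om n).filter (fun e => (e.1 : ℕ) + i.2 = v ∧ (e.2 : ℕ) ≤ v)

theorem mem_true {n v k : ℕ} {e : Fin n × Fin n} :
    e ∈ SS n v (true, k) ↔ e.1 < e.2 ∧ (e.2 : ℕ) = v + k ∧ v ≤ (e.1 : ℕ) := by
  simp [SS, Om]

theorem mem_false {n v k : ℕ} {e : Fin n × Fin n} :
    e ∈ SS n v (false, k) ↔ e.1 < e.2 ∧ (e.1 : ℕ) + k = v ∧ (e.2 : ℕ) ≤ v := by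
  simp [SS, Om]

theorem SS_sub (n v : ℕ) (i : Bool × ℕ) : SS n v i ⊆ Om n := by
  unfold SS
  split_ifs
  · exact Finset.filter_subset _ _
  · exact Finset.filter_subset _ _

theorem SS_disj (n v : ℕ) (i j : Bool × ℕ) (hi : 1 ≤ i.2) (hj : 1 ≤ j.2) (hij : i ≠ j) :
    Disjoint (SS n v i) (SS n v j) := by
  rw [Finset.disjoint_left]
  intro e he he'
  obtain ⟨bi, ki⟩ := i
  obtain ⟨bj, kj⟩ := j
  simp only at hi hj
  cases bi <;> cases bj
  · rw [mem_false] at he he'
    apply hij
    have : ki = kj := by omega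
    rw [this]
  · rw [mem_false] at he
    rw [mem_true] at he'
    omega
  · rw [mem_true] at he
    rw [mem_false] at he'
    omega
  · rw [mem_true] at he he'
    apply hij
    have : ki = kj := by omega
    rw [this]

theorem SS_card (n v : ℕ) (hv : v < n) (i : Bool × ℕ) (hne : SS n v i ≠ ∅) :
    i.2 ≤ (SS n v i).card := by
  obtain ⟨e, he⟩ := Finset.nonempty_iff_ne_empty.mpr hne
  obtain ⟨b, k⟩ := i
  simp only
  cases b
  · rw [mem_false] at he
    have hkv : k ≤ v := by omega
    have hinj : Function.Injective (fun t : Fin k => ((⟨v - k, by omega⟩ : Fin n), (⟨v - t, by omega⟩ : Fin n))) := by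
      intro t t' h
      simp only [Prod.mk.injEq, Fin.mk.injEq, true_and] at h
      apply Fin.ext
      have h1 := t.2
      have h2 := t'.2
      omega
    calc k = (Finset.univ : Finset (Fin k)).card := by simp
      _ = ((Finset.univ : Finset (Fin k)).image (fun t : Fin k => ((⟨v - k, by omega⟩ : Fin n), (⟨v - t, by omega⟩ : Fin n)))).card :=
        (Finset.card_image_of_injective _ hinj).symm
      _ ≤ _ := by
        apply Finset.card_le_card
        intro x hx
        rw [Finset.mem_image] at hx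
        obtain ⟨t, -, rfl⟩ := hx
        rw [mem_false]
        have h1 := t.2
        refine ⟨?_, ?_, ?_⟩
        · rw [Fin.lt_def]
          simp only
          omega
        · simp only
          omega
        · simp only
          omega
  · rw [mem_true] at he
    have hkn : v + k < n := by
      have := e.2.2
      omega
    have hinj : Function.Injective (fun t : Fin k => ((⟨v + t, by omega⟩ : Fin n), (⟨v + k, by omega⟩ : Fin n))) := by
      intro t t' h
      simp only [Prod.mk.injEq, Fin.mk.injEq, and_true] at h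
      apply Fin.ext
      omega
    calc k = (Finset.univ : Finset (Fin k)).card := by simp
      _ = ((Finset.univ : Finset (Fin k)).image (fun t : Fin k => ((⟨v + t, by omega⟩ : Fin n), (⟨v + k, by omega⟩ : Fin n)))).card :=
        (Finset.card_image_of_injective _ hinj).symm
      _ ≤ _ := by
        apply Finset.card_le_card
        intro x hx
        rw [Finset.mem_image] at hx
        obtain ⟨t, -, rfl⟩ := hx
        rw [mem_true]
        have h1 := t.2
        refine ⟨?_, ?_, ?_⟩
        · rw [Fin.lt_def]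
          simp only
          omega
        · simp only
        · simp only
          omega

theorem main (hB : S_PBAS) (hI : S_PIND) : S_LPP := by
  intro p hp0 hp1
  set q : ℝ := 1 - p with hq
  have hq0 : 0 < q := by linarith
  have hq1 : q < 1 := by linarith
  obtain ⟨c, hc0, hc1, hc⟩ := prod_lower q hq0 hq1
  refine ⟨c ^ 2, by positivity, by nlinarith, ?_⟩
  intro n L v hv
  obtain ⟨b1, b2, b3, b4, b5, b6⟩ := hB p n hp0 hp1
  obtain ⟨i1, i2, i3⟩ := hI p n hp0 hp1
  set s : Finset (Bool × ℕ) := (Finset.univ : Finset Bool) ×ˢ Finset.Icc 1 L with hs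
  set A : Bool × ℕ → Finset (Fin n × Fin n) → Prop := fun i F => SS n v i = ∅ ∨ ¬ F = ∅ with hA
  have hmem : ∀ i ∈ s, 1 ≤ i.2 ∧ i.2 ≤ L := by
    intro i hi
    rw [hs, Finset.mem_product, Finset.mem_Icc] at hi
    exact hi.2
  have hmem' : ∀ b k, 1 ≤ k → k ≤ L → (b, k) ∈ s := by
    intro b k h1 h2
    rw [hs, Finset.mem_product, Finset.mem_Icc]
    exact ⟨Finset.mem_univ _, h1, h2⟩
  have hprod := i2 (Bool × ℕ) s (SS n v) A (fun i hi j hj hij =>
    SS_disj n v i j (hmem i hi).1 (hmem j hj).1 hij)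
  have hmono : Pr p n (fun E => ∀ i ∈ s, A i (E ∩ SS n v i)) ≤ Pr p n (fun E => LPost L E v) := by
    apply b3
    intro E hE h
    constructor
    · intro k hk1 hkL w hw
      have h1 := h (true, k) (hmem' true k hk1 hkL)
      have hmw : ((⟨v, hv⟩ : Fin n), w) ∈ SS n v (true, k) := by
        rw [mem_true]
        refine ⟨?_, hw, le_rfl⟩
        rw [Fin.lt_def]
        simp only
        omega
      rcases h1 with h1 | h1
      · rw [h1] at hmw
        simp at hmw
      · obtain ⟨e, he⟩ := Finset.nonempty_iff_ne_empty.mpr h1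
        rw [Finset.mem_inter, mem_true] at he
        obtain ⟨heE, he1, he2, he3⟩ := he
        have hew : e.2 = w := by
          apply Fin.ext
          omega
        refine ⟨e.1, he3, ?_, ?_⟩
        · rw [← hew]
          exact he1
        · rw [← hew]
          exact heE
    · intro k hk1 hkL w hw
      have h1 := h (false, k) (hmem' false k hk1 hkL)
      have hmw : (w, (⟨v, hv⟩ : Fin n)) ∈ SS n v (false, k) := by
        rw [mem_false]
        refine ⟨?_, hw, le_rfl⟩
        rw [Fin.lt_def]
        simp only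
        omega
      rcases h1 with h1 | h1
      · rw [h1] at hmw
        simp at hmw
      · obtain ⟨e, he⟩ := Finset.nonempty_iff_ne_empty.mpr h1
        rw [Finset.mem_inter, mem_false] at he
        obtain ⟨heE, he1, he2, he3⟩ := he
        have hew : e.1 = w := by
          apply Fin.ext
          omega
        refine ⟨e.2, he3, ?_, ?_⟩
        · rw [← hew]
          exact he1
        · rw [← hew]
          exact heE
  refine le_trans ?_ hmono
  rw [hprod]
  have hfac : ∀ i ∈ s, 1 - q ^ i.2 ≤ Pr p n (fun E => A i (E ∩ SS n v i)) := by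
    intro i hi
    by_cases hne : SS n v i = ∅
    · have h1 : Pr p n (fun _ => True) ≤ Pr p n (fun E => A i (E ∩ SS n v i)) := by
        apply b3
        intro E _ _
        exact Or.inl hne
      rw [b1] at h1
      have : 0 < q ^ i.2 := pow_pos hq0 _
      linarith
    · have h1 : Pr p n (fun E => ¬ (E ∩ SS n v i = ∅)) ≤ Pr p n (fun E => A i (E ∩ SS n v i)) := by
        apply b3
        intro E _ h
        exact Or.inr h
      rw [b5, i3 _ (SS_sub n v i)] at h1
      have h2 : q ^ (SS n v i).card ≤ q ^ i.2 :=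
        pow_le_pow_of_le_one hq0.le hq1.le (SS_card n v hv i hne)
      linarith
  have hprod2 : ∏ i ∈ s, (1 - q ^ i.2) ≤ ∏ i ∈ s, Pr p n (fun E => A i (E ∩ SS n v i)) := by
    apply Finset.prod_le_prod
    · intro i hi
      have := (hmem i hi).1
      have h1 : q ^ i.2 < 1 := pow_lt_one₀ hq0.le hq1 (by omega)
      linarith
    · exact hfac
  refine le_trans ?_ hprod2
  rw [hs, Finset.prod_product]
  simp only [Fintype.univ_bool, Finset.prod_const]
  have h2 : ({true, false} : Finset Bool).card = 2 := by decide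
  rw [h2]
  exact pow_le_pow_left₀ hc0.le (hc L) 2

end

end Pool.Agent.W918.RD.LPP
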